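import Pool.Agent.Run7.h88.PE.Win

/-!
# Digits of two forms with low linear complexity between a few breaks
-/

set_option autoImplicit false

namespace Run7.h88.PE

open Finset
open Pool.Agent.H831R3.LC (dig)
open Pool.Agent.W47.JL (err err_ge err_le log_le_err log_facts M2 rec_final)
open Pool.Agent.R354.LC (G G_nonneg approx_one G_linear)

lemma err_mono {m n : ℕ} (h : m ≤ n) : err m ≤ err n := by
  unfold Pool.Agent.W47.JL.err
  have h1 : (m : ℝ) ≤ n := by exact_mod_cast h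
  have hm : (0 : ℝ) ≤ m := Nat.cast_nonneg m
  apply Real.sqrt_le_sqrt
  have h2 : Real.log ((m : ℝ) + 2) ≤ Real.log ((n : ℝ) + 2) :=
    Real.log_le_log (by positivity) (by linarith)
  have h3 : 0 ≤ Real.log ((m : ℝ) + 2) := Real.log_nonneg (by linarith)
  exact mul_le_mul (by linarith) h2 h3 (by linarith)

/-- one base -/
theorem one_final (A B Γ A' B' Γ' M : ℤ) (hM : 1 ≤ M) (hΔ : A' * B - A * B' ≠ 0) :
    ∃ C : ℝ, 0 < C ∧ ∀ (ξ y y' : ℝ), (M : ℝ) * y = A * ξ + B * Real.exp 1 + Γ →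
      (M : ℝ) * y' = A' * ξ + B' * Real.exp 1 + Γ' → ∀ (b L m m' k : ℕ) (E : Finset ℕ),
      2 ≤ b → E.card ≤ k →
      (∀ u v : ℕ, u ≤ v → v ≤ L → (∀ i ∈ E, i < u ∨ v ≤ i) →
        (∃ c, Rec y b u v m c) ∧ ∃ c, Rec y' b u v m' c) →
      (L : ℝ) ≤ (∑ i ∈ range (k + 1), (2 : ℝ) ^ (i + 1)) * (((m + m' : ℕ) : ℝ) + C * err (m + m')) := by
  obtain ⟨β, hβ0, hβ⟩ := one_base A B Γ A' B' Γ' M hM hΔ
  have hl0 : 0 ≤ Real.log (2 + 2 + 3 / 2 + β) := Real.log_nonneg (by linarith)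
  obtain ⟨R, hR⟩ : ∃ R : ℝ, R = Real.log (2 + 2 + 3 / 2 + β) := ⟨_, rfl⟩
  refine ⟨30 + 9 + (2 * β + 1 + 3 / 2 * R) * 2, by rw [hR]; positivity, ?_⟩
  intro ξ y y' hy hy' b L m m' k E hb hE hwin
  have hG := G_nonneg m
  have hG' := G_nonneg m'
  have h1 := rec_final 2 (3 / 2) β (G m + G m') (3 / 2) (by norm_num) (by norm_num) hβ0
    (by linarith) (by norm_num) (by norm_num) E L k hE (by
      intro u v huv hvL hE'
      obtain ⟨⟨c, hc⟩, ⟨c', hc'⟩⟩ := hwin u v huv hvL hE'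
      exact hβ ξ y y' hy hy' b u v m m' c c' hb huv hc hc')
  refine h1.trans (mul_le_mul_of_nonneg_left ?_ (Finset.sum_nonneg fun i _ => by positivity))
  have h2 := err_mono (Nat.le_add_right m m')
  have h3 := err_mono (Nat.le_add_left m' m)
  have hM1 : G m + G m' ≤ ((m + m' : ℕ) : ℝ) + 30 * err (m + m') := by
    unfold Pool.Agent.R354.LC.G
    push_cast
    linarith
  obtain ⟨hf1, hf2⟩ := log_facts (m + m')
  have hs1 := err_ge (m + m')
  have hs2 := log_le_err (m + m')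
  have hs3 := err_le (m + m')
  obtain ⟨n, hn⟩ : ∃ n : ℕ, n = m + m' := ⟨_, rfl⟩
  rw [← hn] at hM1 hf1 hf2 hs1 hs2 hs3 ⊢
  have hm0 : (0 : ℝ) ≤ n := Nat.cast_nonneg n
  obtain ⟨g, hg⟩ : ∃ g : ℝ, g = G m + G m' := ⟨_, rfl⟩
  have hg0 : 0 ≤ g := by rw [hg]; linarith
  rw [← hg] at hM1 ⊢
  have h4 : Real.log (1 + g) ≤ 6 * err n := by
    have h5 : Real.log (1 + g) ≤ Real.log (32 * ((n : ℝ) + 2)) :=
      Real.log_le_log (by linarith) (by linarith)
    rw [Real.log_mul (by norm_num) (by positivity),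
      show (32 : ℝ) = 2 ^ 5 by norm_num, Real.log_pow] at h5
    have := Real.log_two_lt_d9
    push_cast at h5
    linarith
  have hR0 : 0 ≤ R := by rw [hR]; exact hl0
  have h5 : (2 * β + 1 + 3 / 2 * R) * 1 ≤ (2 * β + 1 + 3 / 2 * R) * (2 * err n) :=
    mul_le_mul_of_nonneg_left (by linarith) (by positivity)
  unfold Pool.Agent.W47.JL.M2
  rw [← hR]
  linarith

/-- the last break before the point `z` of a logarithmic scale -/
lemma last_break (E : Finset ℕ) (l z : ℝ) (hl : 0 < l) (hz : 0 < z) :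
    ∃ u v : ℕ, u ≤ v ∧ (v : ℝ) * l < z ∧ z ≤ (v + 1) * l ∧ (∀ i ∈ E, i < u ∨ v ≤ i) ∧
      (u = 0 ∨ ∃ i ∈ E, i + 1 = u ∧ ((i : ℝ) + 1) * l < z) := by
  classical
  obtain ⟨v, hv⟩ : ∃ v : ℕ, v = ⌈z / l⌉₊ - 1 := ⟨_, rfl⟩
  have hpos : 0 < ⌈z / l⌉₊ := Nat.ceil_pos.2 (div_pos hz hl)
  have hv1 : v + 1 = ⌈z / l⌉₊ := by omega
  have h1 : z ≤ (v + 1) * l := by
    have h2 := Nat.le_ceil (z / l)
    rw [← hv1, div_le_iff₀ hl] at h2
    push_cast at h2
    exact h2
  have h2 : (v : ℝ) * l < z := by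
    have h3 : v < ⌈z / l⌉₊ := by omega
    rw [Nat.lt_ceil, lt_div_iff₀ hl] at h3
    exact h3
  have hlt : ∀ i : ℕ, ((i : ℝ) + 1) * l < z → i + 1 ≤ v := by
    intro i hi
    by_contra hcon
    push Not at hcon
    have h3 : (v : ℝ) + 1 ≤ i + 1 := by exact_mod_cast (by omega : v + 1 ≤ i + 1)
    nlinarith
  by_cases hne : (E.filter fun i => i < v).Nonempty
  · obtain ⟨i0, hi0⟩ : ∃ i0, i0 = (E.filter fun i => i < v).max' hne := ⟨_, rfl⟩
    have hmem := Finset.max'_mem _ hne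
    rw [← hi0, mem_filter] at hmem
    have hi1 : ((i0 : ℝ) + 1) * l < z := by
      have h3 : (i0 : ℝ) + 1 ≤ v := by exact_mod_cast hmem.2
      nlinarith
    refine ⟨i0 + 1, v, hmem.2, h2, h1, fun i hi => ?_, Or.inr ⟨i0, hmem.1, rfl, hi1⟩⟩
    by_contra hcon
    push Not at hcon
    have h4 := Finset.le_max' (E.filter fun i => i < v) i (by
      rw [mem_filter]; exact ⟨hi, by omega⟩)
    omega
  · refine ⟨0, v, Nat.zero_le _, h2, h1, fun i hi => Or.inr ?_, Or.inl rfl⟩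
    by_contra hcon
    push Not at hcon
    exact hne ⟨i, by rw [mem_filter]; exact ⟨hi, hcon⟩⟩

/-- the number of the breaks before the point `z` -/
noncomputable def cnt (E : Finset ℕ) (l z : ℝ) : ℕ :=
  (E.filter fun i : ℕ => ((i : ℝ) + 1) * l < z).card

lemma cnt_mono (E : Finset ℕ) (l : ℝ) {a z : ℝ} (h : a ≤ z) : cnt E l a ≤ cnt E l z := by
  unfold cnt
  apply Finset.card_le_card
  intro i hi
  rw [mem_filter] at hi ⊢
  exact ⟨hi.1, lt_of_lt_of_le hi.2 h⟩

lemma cnt_lt (E : Finset ℕ) (l : ℝ) {a z : ℝ} (i : ℕ) (hi : i ∈ E) (h : ((i : ℝ) + 1) * l < z)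
    (ha : a ≤ ((i : ℝ) + 1) * l) : cnt E l a + 1 ≤ cnt E l z := by
  unfold cnt
  rw [Nat.succ_le_iff]
  apply Finset.card_lt_card
  rw [Finset.ssubset_iff_of_subset]
  · refine ⟨i, by rw [mem_filter]; exact ⟨hi, h⟩, ?_⟩
    rw [mem_filter]
    rintro ⟨-, h2⟩
    linarith
  · intro j hj
    rw [mem_filter] at hj ⊢
    exact ⟨hj.1, by linarith [hj.2]⟩

lemma cnt_le (E : Finset ℕ) (l z : ℝ) : cnt E l z ≤ E.card := Finset.card_filter_le _ _

/-- the recursion for two sets of breaks -/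
theorem two_rec (E E' : Finset ℕ) (l l' S C X : ℝ) (hl : 0 < l) (hl' : 0 < l') (hS : 0 ≤ S)
    (hC : 0 ≤ C)
    (h : ∀ u v u' v' : ℕ, u ≤ v → u' ≤ v' → (v : ℝ) * l ≤ X → (v' : ℝ) * l' ≤ X →
      (∀ i ∈ E, i < u ∨ v ≤ i) → (∀ i ∈ E', i < u' ∨ v' ≤ i) →
      min (v * l) (v' * l') ≤ 27 / 13 * (u * l + u' * l' + S) + C * (l + l')) :
    X ≤ 3 ^ (E.card + E'.card + 1) * (S + (C + 1) * (l + l')) := by
  obtain ⟨S', hS'⟩ : ∃ S' : ℝ, S' = S + (C + 1) * (l + l') := ⟨_, rfl⟩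
  rw [← hS']
  have hS'0 : 0 ≤ S' := by rw [hS']; positivity
  have key : ∀ n : ℕ, ∀ z : ℝ, z ≤ X → cnt E l z + cnt E' l' z ≤ n → z ≤ 3 ^ (n + 1) * S' := by
    intro n
    induction n using Nat.strong_induction_on with
    | _ n ih =>
      intro z hzX hn
      rcases le_or_gt z 0 with hz0 | hz0
      · exact hz0.trans (by positivity)
      obtain ⟨u, v, huv, hv1, hv2, hE, hu⟩ := last_break E l z hl hz0
      obtain ⟨u', v', huv', hv1', hv2', hE', hu'⟩ := last_break E' l' z hl' hz0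
      have h1 := h u v u' v' huv huv' (by linarith) (by linarith) hE hE'
      have h2 : z - (l + l') ≤ min (v * l) (v' * l') := by
        rw [le_min_iff]
        constructor
        · linarith
        · linarith
      have h3 : z ≤ 27 / 13 * (u * l + u' * l' + S') := by
        have : 0 ≤ (C + 1) * (l + l') := by positivity
        rw [hS']
        linarith
      have hp : (1 : ℝ) ≤ 3 ^ n := one_le_pow₀ (by norm_num)
      rcases hu with hu | ⟨i, hiE, hiu, hiz⟩
      · rcases hu' with hu' | ⟨i', hiE', hiu', hiz'⟩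
        · rw [hu, hu'] at h3
          push_cast at h3
          rw [pow_succ]
          have h4 : 1 * S' ≤ 3 ^ n * S' := mul_le_mul_of_nonneg_right hp hS'0
          linarith
        · have hpos : (u' : ℝ) * l' = ((i' : ℝ) + 1) * l' := by rw [← hiu']; push_cast; ring
          have h4 := cnt_lt E' l' i' hiE' hiz' le_rfl
          have h5 := cnt_mono E l hiz'.le
          obtain ⟨n', rfl⟩ : ∃ n', n = n' + 1 := ⟨n - 1, by omega⟩
          have h6 := ih n' (by omega) (((i' : ℝ) + 1) * l') (by linarith) (by omega)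
          rw [hu, hpos] at h3
          push_cast at h3
          have hp' : (1 : ℝ) ≤ 3 ^ n' := one_le_pow₀ (by norm_num)
          have h7 : 1 * S' ≤ 3 ^ n' * S' := mul_le_mul_of_nonneg_right hp' hS'0
          rw [pow_succ] at h6
          rw [pow_succ, pow_succ]
          linarith
      · have hposu : (u : ℝ) * l = ((i : ℝ) + 1) * l := by rw [← hiu]; push_cast; ring
        rcases hu' with hu' | ⟨i', hiE', hiu', hiz'⟩
        · have h4 := cnt_lt E l i hiE hiz le_rfl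
          have h5 := cnt_mono E' l' hiz.le
          obtain ⟨n', rfl⟩ : ∃ n', n = n' + 1 := ⟨n - 1, by omega⟩
          have h6 := ih n' (by omega) (((i : ℝ) + 1) * l) (by linarith) (by omega)
          rw [hu', hposu] at h3
          push_cast at h3
          have hp' : (1 : ℝ) ≤ 3 ^ n' := one_le_pow₀ (by norm_num)
          have h7 : 1 * S' ≤ 3 ^ n' * S' := mul_le_mul_of_nonneg_right hp' hS'0
          rw [pow_succ] at h6
          rw [pow_succ, pow_succ]
          linarith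
        · have hpos : (u' : ℝ) * l' = ((i' : ℝ) + 1) * l' := by rw [← hiu']; push_cast; ring
          rw [hposu, hpos] at h3
          rcases le_total (((i' : ℝ) + 1) * l') (((i : ℝ) + 1) * l) with hle | hle
          · have h4 := cnt_lt E l i hiE hiz le_rfl
            have h5 := cnt_mono E' l' hiz.le
            have h6 := cnt_lt E l i hiE hiz hle
            have h7 := cnt_lt E' l' i' hiE' hiz' le_rfl
            obtain ⟨n', rfl⟩ : ∃ n', n = n' + 2 := ⟨n - 2, by omega⟩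
            have h8 := ih (n' + 1) (by omega) (((i : ℝ) + 1) * l) (by linarith) (by omega)
            have h9 := ih n' (by omega) (((i' : ℝ) + 1) * l') (by linarith) (by omega)
            have hp' : (1 : ℝ) ≤ 3 ^ n' := one_le_pow₀ (by norm_num)
            have h10 : 1 * S' ≤ 3 ^ n' * S' := mul_le_mul_of_nonneg_right hp' hS'0
            rw [pow_succ, pow_succ] at h8
            rw [pow_succ] at h9
            rw [pow_succ, pow_succ, pow_succ]
            linarith
          · have h4 := cnt_lt E' l' i' hiE' hiz' le_rfl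
            have h5 := cnt_mono E l hiz'.le
            have h6 := cnt_lt E' l' i' hiE' hiz' hle
            have h7 := cnt_lt E l i hiE hiz le_rfl
            obtain ⟨n', rfl⟩ : ∃ n', n = n' + 2 := ⟨n - 2, by omega⟩
            have h8 := ih (n' + 1) (by omega) (((i' : ℝ) + 1) * l') (by linarith) (by omega)
            have h9 := ih n' (by omega) (((i : ℝ) + 1) * l) (by linarith) (by omega)
            have hp' : (1 : ℝ) ≤ 3 ^ n' := one_le_pow₀ (by norm_num)
            have h10 : 1 * S' ≤ 3 ^ n' * S' := mul_le_mul_of_nonneg_right hp' hS'0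
            rw [pow_succ, pow_succ] at h8
            rw [pow_succ] at h9
            rw [pow_succ, pow_succ, pow_succ]
            linarith
  exact key _ X le_rfl (Nat.add_le_add (cnt_le E l X) (cnt_le E' l' X))

/-- two bases -/
theorem two_final (A B Γ A' B' Γ' M : ℤ) (hM : 1 ≤ M) (hΔ : A' * B - A * B' ≠ 0) :
    ∃ C : ℝ, 0 < C ∧ ∀ (ξ y y' : ℝ), (M : ℝ) * y = A * ξ + B * Real.exp 1 + Γ →
      (M : ℝ) * y' = A' * ξ + B' * Real.exp 1 + Γ' → ∀ (b b' L L' m m' : ℕ) (E E' : Finset ℕ),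
      2 ≤ b → 2 ≤ b' →
      (∀ u v : ℕ, u ≤ v → v ≤ L → (∀ i ∈ E, i < u ∨ v ≤ i) → ∃ c, Rec y b u v m c) →
      (∀ u v : ℕ, u ≤ v → v ≤ L' → (∀ i ∈ E', i < u ∨ v ≤ i) → ∃ c, Rec y' b' u v m' c) →
      min (L * Real.log b) (L' * Real.log b') ≤ 3 ^ (E.card + E'.card + 1) *
        (m * Real.log b + m' * Real.log b' + C * (Real.log b + Real.log b')) := by
  obtain ⟨C1, hC1, hwin⟩ := two_bases A B Γ A' B' Γ' M hM hΔ
  obtain ⟨K, hK0, hK⟩ := G_linear (1 / 100) (by norm_num)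
  refine ⟨(2 + 1 / 20) * K + C1 + 1, by positivity, ?_⟩
  intro ξ y y' hy hy' b b' L L' m m' E E' hb hb' hw hw'
  have hl := log_b hb
  have hl' := log_b hb'
  obtain ⟨l, hll⟩ : ∃ l : ℝ, l = Real.log b := ⟨_, rfl⟩
  obtain ⟨l', hll'⟩ : ∃ l' : ℝ, l' = Real.log b' := ⟨_, rfl⟩
  rw [← hll] at hl ⊢
  rw [← hll'] at hl' ⊢
  have hm0 : (0 : ℝ) ≤ m := Nat.cast_nonneg m
  have hm0' : (0 : ℝ) ≤ m' := Nat.cast_nonneg m'
  have hl0 : 0 < l := by linarith
  have hl0' : 0 < l' := by linarith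
  refine two_rec E E' l l' (m * l + m' * l') ((2 + 1 / 20) * K + C1) _ hl0 hl0' (by positivity)
    (by positivity) ?_
  intro u v u' v' huv huv' hvX hvX' hE hE'
  have hvL : v ≤ L := by
    have h1 : (v : ℝ) * l ≤ L * l := hvX.trans (min_le_left _ _)
    exact_mod_cast le_of_mul_le_mul_right h1 hl0
  have hvL' : v' ≤ L' := by
    have h1 : (v' : ℝ) * l' ≤ L' * l' := hvX'.trans (min_le_right _ _)
    exact_mod_cast le_of_mul_le_mul_right h1 hl0'
  obtain ⟨c, hc⟩ := hw u v huv hvL hE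
  obtain ⟨c', hc'⟩ := hw' u' v' huv' hvL' hE'
  have h1 := hwin ξ y y' hy hy' b b' u v u' v' m m' c c' hb hb' huv huv' hc hc'
  rw [← hll, ← hll'] at h1
  have hG := mul_le_mul_of_nonneg_right (hK m) hl0.le
  have hG' := mul_le_mul_of_nonneg_right (hK m') hl0'.le
  have hu0 : (0 : ℝ) ≤ u * l := by positivity
  have hu0' : (0 : ℝ) ≤ u' * l' := by positivity
  have hml : (0 : ℝ) ≤ m * l := by positivity
  have hml' : (0 : ℝ) ≤ m' * l' := by positivity
  refine h1.trans ?_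
  nlinarith

end Run7.h88.PE
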