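import Pool.Agent.R354.LCone

/-!
# Rational approximations to two forms `α ξ + β e + γ`, with the sharp measure of `e`
-/

set_option autoImplicit false

namespace Run7.h88.PE

open Finset
open Pool.Agent.H831R3.LC (dig)
open Pool.Agent.W47.JL (err err_ge err_le log_le_err log_facts)
open Pool.Agent.R354.LC (G G_nonneg approx_one G_linear)

/-- the measure of irrationality of `e`, with a logarithm -/
theorem e_log : ∃ c : ℝ, 0 < c ∧ ∀ Q : ℕ, 1 ≤ Q → ∀ m : ℤ,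
    c ≤ (Q : ℝ) * (1 + Real.log Q) * |(Q : ℝ) * Real.exp 1 - m| := by
  refine ⟨1 / 240, by norm_num, fun Q hQ m => ?_⟩
  obtain ⟨n, h1, h2⟩ := Pool.Agent.H43R2.Cplx.EMeas.lower Q hQ m
  have hQR : (1 : ℝ) ≤ Q := by exact_mod_cast hQ
  have hl : 0 ≤ Real.log Q := Real.log_nonneg hQR
  have h3 : (2 : ℝ) ^ n ≤ 8 * Q := by exact_mod_cast h1.le
  have h4 := Real.log_le_log (by positivity) h3
  rw [Real.log_pow, Real.log_mul (by norm_num) (by positivity), show (8 : ℝ) = 2 ^ 3 by norm_num,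
    Real.log_pow] at h4
  have h5 := Real.log_two_gt_d9
  have h6 := Real.log_two_lt_d9
  push_cast at h4
  have hn0 : (0 : ℝ) ≤ n := Nat.cast_nonneg n
  have hn : (n : ℝ) ≤ 4 + 2 * Real.log Q := by nlinarith
  have h7 : (8 * (4 * n + 3) * Q : ℝ) ≤ 240 * (Q * (1 + Real.log Q)) := by nlinarith
  have h8 : (0 : ℝ) < Q * (1 + Real.log Q) := by positivity
  have h9 : 1 / (240 * (Q * (1 + Real.log Q))) ≤ |(Q : ℝ) * Real.exp 1 - m| :=
    (one_div_le_one_div_of_le (by positivity) h7).trans h2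
  rw [div_le_iff₀ (by positivity)] at h9
  linarith

/-- the approximations on a window of the digits -/
theorem approx_win (x : ℝ) (b : ℕ) (hb : 2 ≤ b) (u v m : ℕ) (huv : u ≤ v) (c : ℕ → ℚ)
    (hc : ∀ i, u ≤ i → i + m < v →
      (dig x b (i + m + 1) : ℚ) = ∑ l ∈ range m, c l * (dig x b (i + l + 1) : ℚ)) :
    ∃ (q : ℕ) (p : ℤ), 1 ≤ q ∧ Real.log q ≤ G m * Real.log b ∧
      |(q : ℝ) * (b : ℝ) ^ u * x - p| ≤ Real.exp ((G m + 1 - (v - u)) * Real.log b) := by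
  have hbR : (2 : ℝ) ≤ b := by exact_mod_cast hb
  have e1 : ∀ i, dig (x * (b : ℝ) ^ u) b i = dig x b (u + i) := by
    intro i
    unfold Pool.Agent.H831R3.LC.dig
    rw [mul_assoc, ← pow_add]
  obtain ⟨q, p, h1, h2, h3⟩ := approx_one (x * (b : ℝ) ^ u) b hb (v - u) m c (by
    intro i hi
    have h := hc (u + i) (by omega) (by omega)
    rw [e1, show u + (i + m + 1) = u + i + m + 1 by ring, h]
    refine Finset.sum_congr rfl fun l _ => ?_
    rw [e1, show u + (i + l + 1) = u + i + l + 1 by ring])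
  refine ⟨q, p, h1, h2, ?_⟩
  have hb0 : (0 : ℝ) < b := by linarith
  have e2 : (b : ℝ) ^ (v - u) = Real.exp (((v : ℝ) - u) * Real.log b) := by
    rw [← Nat.cast_sub huv, mul_comm, Real.exp_mul, Real.exp_log hb0, Real.rpow_natCast]
  have e3 : (q : ℝ) * (x * (b : ℝ) ^ u) = (q : ℝ) * (b : ℝ) ^ u * x := by ring
  rw [e2, e3] at h3
  have e4 : Real.exp ((G m + 1 - (v - u)) * Real.log b) =
      Real.exp ((G m + 1) * Real.log b) / Real.exp (((v : ℝ) - u) * Real.log b) := by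
    rw [← Real.exp_sub]
    congr 1
    ring
  rw [e4, le_div_iff₀ (Real.exp_pos _)]
  exact h3

/-- the data of two independent forms: `M y = A ξ + B e + Γ`, `M y' = A' ξ + B' e + Γ'`,
and `A' B ≠ A B'`; two approximations give one to `e` -/
theorem pair (A B Γ A' B' Γ' M : ℤ) (hM : 1 ≤ M) (hΔ : A' * B - A * B' ≠ 0) :
    ∃ K : ℝ, 0 < K ∧ ∀ (ξ y y' : ℝ), (M : ℝ) * y = A * ξ + B * Real.exp 1 + Γ →
      (M : ℝ) * y' = A' * ξ + B' * Real.exp 1 + Γ' → ∀ (g q q' : ℕ) (p p' : ℤ),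
      1 ≤ g → 1 ≤ q → 1 ≤ q' →
      1 ≤ K * ((g : ℝ) * q * q') * (1 + Real.log ((g : ℝ) * q * q')) *
        ((q' : ℝ) * |(q : ℝ) * g * y - p| + q * |(q' : ℝ) * g * y' - p'|) := by
  obtain ⟨c0, hc0, hmeas⟩ := e_log
  obtain ⟨D, hD⟩ : ∃ D : ℕ, D = (A' * B - A * B').natAbs := ⟨_, rfl⟩
  have hD1 : 1 ≤ D := by rw [hD]; exact Int.natAbs_pos.2 hΔ
  have hDR : (1 : ℝ) ≤ D := by exact_mod_cast hD1
  have hlD : 0 ≤ Real.log D := Real.log_nonneg hDR
  obtain ⟨K, hK⟩ : ∃ K : ℝ, K = M * (|(A : ℝ)| + |(A' : ℝ)| + 1) := ⟨_, rfl⟩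
  have hMR : (1 : ℝ) ≤ M := by exact_mod_cast hM
  have hA0 := abs_nonneg (A : ℝ)
  have hA'0 := abs_nonneg (A' : ℝ)
  have hK0 : 0 < K := by rw [hK]; positivity
  refine ⟨D * (1 + Real.log D) * K / c0, by positivity, ?_⟩
  intro ξ y y' hy hy' g q q' p p' hg hq hq'
  have hgR : (1 : ℝ) ≤ g := by exact_mod_cast hg
  have hqR : (1 : ℝ) ≤ q := by exact_mod_cast hq
  have hq'R : (1 : ℝ) ≤ q' := by exact_mod_cast hq'
  obtain ⟨σ, hσ, hσ'⟩ : ∃ σ : ℤ, |σ| = 1 ∧ (D : ℤ) = σ * (A' * B - A * B') := by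
    rcases Int.natAbs_eq (A' * B - A * B') with h | h
    · exact ⟨1, by simp, by rw [hD]; omega⟩
    · exact ⟨-1, by simp, by rw [hD]; omega⟩
  have hσR : |(σ : ℝ)| = 1 := by exact_mod_cast hσ
  have hσ'R : (D : ℝ) = σ * (A' * B - A * B') := by exact_mod_cast hσ'
  have h1 := hmeas (g * q * q' * D)
    (Nat.mul_pos (Nat.mul_pos (Nat.mul_pos hg hq) hq') hD1)
    (σ * (A' * M * q' * p - A * M * q * p' - g * q * q' * (A' * Γ - A * Γ')))
  have h2 : ((g * q * q' * D : ℕ) : ℝ) * Real.exp 1 -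
      ((σ * (A' * M * q' * p - A * M * q * p' - g * q * q' * (A' * Γ - A * Γ')) : ℤ) : ℝ) =
      σ * (A' * M * q' * (q * g * y - p) - A * M * q * (q' * g * y' - p')) := by
    push_cast
    rw [hσ'R]
    linear_combination (-(σ : ℝ) * g * q * q' * A') * hy + ((σ : ℝ) * g * q * q' * A) * hy'
  rw [h2] at h1
  have h3 : |(σ : ℝ) * (A' * M * q' * (q * g * y - p) - A * M * q * (q' * g * y' - p'))| ≤
      K * ((q' : ℝ) * |(q : ℝ) * g * y - p| + q * |(q' : ℝ) * g * y' - p'|) := by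
    rw [abs_mul, hσR, one_mul]
    refine (abs_sub _ _).trans ?_
    rw [abs_mul, abs_mul, abs_mul, abs_mul, abs_mul, abs_mul, Nat.abs_cast, Nat.abs_cast,
      abs_of_pos (show (0 : ℝ) < M by linarith), hK, mul_add]
    have e1 : 0 ≤ (q' : ℝ) * |(q : ℝ) * g * y - p| := by positivity
    have e2 : 0 ≤ (q : ℝ) * |(q' : ℝ) * g * y' - p'| := by positivity
    have e3 : |(A' : ℝ)| * M ≤ M * (|(A : ℝ)| + |(A' : ℝ)| + 1) := by nlinarith
    have e4 : |(A : ℝ)| * M ≤ M * (|(A : ℝ)| + |(A' : ℝ)| + 1) := by nlinarith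
    have e5 := mul_le_mul_of_nonneg_right e3 e1
    have e6 := mul_le_mul_of_nonneg_right e4 e2
    linarith
  obtain ⟨Q, hQ⟩ : ∃ Q : ℝ, Q = (g : ℝ) * q * q' := ⟨_, rfl⟩
  have hQ1 : 1 ≤ Q := by
    rw [hQ]
    have : 1 ≤ (g : ℝ) * q := by nlinarith
    nlinarith
  have hlQ : 0 ≤ Real.log Q := Real.log_nonneg hQ1
  have h4 : ((g * q * q' * D : ℕ) : ℝ) = Q * D := by
    rw [hQ]; push_cast; ring
  rw [h4, Real.log_mul (by linarith) (by linarith)] at h1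
  rw [← hQ]
  obtain ⟨Z, hZ⟩ : ∃ Z : ℝ, Z = (q' : ℝ) * |(q : ℝ) * g * y - p| +
    q * |(q' : ℝ) * g * y' - p'| := ⟨_, rfl⟩
  have hZ0 : 0 ≤ Z := by rw [hZ]; positivity
  rw [← hZ] at h3 ⊢
  have h5 : 1 + (Real.log Q + Real.log D) ≤ (1 + Real.log Q) * (1 + Real.log D) := by nlinarith
  have h6 : c0 ≤ Q * D * ((1 + Real.log Q) * (1 + Real.log D)) * (K * Z) := by
    refine h1.trans ?_
    refine mul_le_mul (mul_le_mul_of_nonneg_left h5 (by positivity)) h3 (abs_nonneg _)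
      (by positivity)
  have h7 : D * (1 + Real.log D) * K / c0 * Q * (1 + Real.log Q) * Z =
      Q * D * ((1 + Real.log Q) * (1 + Real.log D)) * (K * Z) / c0 := by ring
  rw [h7, le_div_iff₀ hc0, one_mul]
  exact h6

end Run7.h88.PE
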