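import Pool.Agent.Run7.h88.PE.Meas

/-!
# Windows of the digits of two forms with low linear complexity
-/

set_option autoImplicit false

namespace Run7.h88.PE

open Finset
open Pool.Agent.H831R3.LC (dig)
open Pool.Agent.W47.JL (err err_ge err_le log_le_err log_facts M2 rec_final)
open Pool.Agent.R354.LC (G G_nonneg approx_one G_linear)

/-- a recurrence of order `m` on the places `u + 1, …, v` -/
def Rec (x : ℝ) (b u v m : ℕ) (c : ℕ → ℚ) : Prop :=
  ∀ i, u ≤ i → i + m < v →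
    (dig x b (i + m + 1) : ℚ) = ∑ l ∈ range m, c l * (dig x b (i + l + 1) : ℚ)

lemma log_b {b : ℕ} (hb : 2 ≤ b) : 0.69 ≤ Real.log b := by
  have h1 := Real.log_two_gt_d9
  have h2 := Real.log_le_log (by norm_num : (0 : ℝ) < 2) (by exact_mod_cast hb : (2 : ℝ) ≤ b)
  linarith

lemma exp_pow {b : ℕ} (hb : 2 ≤ b) (u : ℕ) : (b : ℝ) ^ u = Real.exp (u * Real.log b) := by
  have hb0 : (0 : ℝ) < b := by exact_mod_cast (by omega : 0 < b)
  rw [mul_comm, Real.exp_mul, Real.exp_log hb0, Real.rpow_natCast]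

lemma le_exp {q : ℕ} (hq : 1 ≤ q) {t : ℝ} (h : Real.log q ≤ t) : (q : ℝ) ≤ Real.exp t := by
  have hq0 : (0 : ℝ) < q := by exact_mod_cast hq
  rw [← Real.log_le_iff_le_exp hq0]
  exact h

/-- one base -/
theorem one_base (A B Γ A' B' Γ' M : ℤ) (hM : 1 ≤ M) (hΔ : A' * B - A * B' ≠ 0) :
    ∃ β : ℝ, 0 ≤ β ∧ ∀ (ξ y y' : ℝ), (M : ℝ) * y = A * ξ + B * Real.exp 1 + Γ →
      (M : ℝ) * y' = A' * ξ + B' * Real.exp 1 + Γ' → ∀ (b u v m m' : ℕ) (c c' : ℕ → ℚ),
      2 ≤ b → u ≤ v → Rec y b u v m c → Rec y' b u v m' c' →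
      (v : ℝ) ≤ 2 * (u + (G m + G m')) + 3 / 2 * Real.log (1 + (u + (G m + G m'))) + β := by
  obtain ⟨K, hK0, hpair⟩ := pair A B Γ A' B' Γ' M hM hΔ
  obtain ⟨C, hC⟩ : ∃ C : ℝ, C = |Real.log (2 * K)| := ⟨_, rfl⟩
  have hC0 : 0 ≤ C := by rw [hC]; exact abs_nonneg _
  refine ⟨2 + 3 / 2 * C, by linarith, ?_⟩
  intro ξ y y' hy hy' b u v m m' c c' hb huv hr hr'
  obtain ⟨q, p, hq, hlq, hp⟩ := approx_win y b hb u v m huv c hr
  obtain ⟨q', p', hq', hlq', hp'⟩ := approx_win y' b hb u v m' huv c' hr'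
  have hG := G_nonneg m
  have hG' := G_nonneg m'
  have hu0 : (0 : ℝ) ≤ u := Nat.cast_nonneg u
  have hl := log_b hb
  obtain ⟨l, hll⟩ : ∃ l : ℝ, l = Real.log b := ⟨_, rfl⟩
  rw [← hll] at hlq hlq' hp hp' hl
  obtain ⟨g, hg⟩ : ∃ g : ℝ, g = G m := ⟨_, rfl⟩
  obtain ⟨g', hg'⟩ : ∃ g' : ℝ, g' = G m' := ⟨_, rfl⟩
  rw [← hg] at hG hlq hp ⊢
  rw [← hg'] at hG' hlq' hp' ⊢
  have hbu : 1 ≤ b ^ u := Nat.one_le_pow _ _ (by omega)
  have h1 := hpair ξ y y' hy hy' (b ^ u) q q' p p' hbu hq hq'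
  have hqe := le_exp hq hlq
  have hqe' := le_exp hq' hlq'
  have hqR : (1 : ℝ) ≤ q := by exact_mod_cast hq
  have hq'R : (1 : ℝ) ≤ q' := by exact_mod_cast hq'
  have hbuR : (1 : ℝ) ≤ (b : ℝ) ^ u := by exact_mod_cast hbu
  have ebu : (b : ℝ) ^ u = Real.exp (u * l) := by rw [hll]; exact exp_pow hb u
  push_cast at h1
  obtain ⟨Q, hQ⟩ : ∃ Q : ℝ, Q = (b : ℝ) ^ u * q * q' := ⟨_, rfl⟩
  rw [← hQ] at h1
  have hQ1 : 1 ≤ Q := by
    rw [hQ]
    have : 1 ≤ (b : ℝ) ^ u * q := by nlinarith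
    nlinarith
  obtain ⟨T, hT⟩ : ∃ T : ℝ, T = u + (g + g') := ⟨_, rfl⟩
  have hT0 : 0 ≤ T := by rw [hT]; linarith
  have hQe : Q ≤ Real.exp (T * l) := by
    have e : Real.exp (T * l) = Real.exp (u * l) * Real.exp (g * l) * Real.exp (g' * l) := by
      rw [← Real.exp_add, ← Real.exp_add]
      congr 1
      rw [hT]; ring
    rw [e, hQ, ebu]
    gcongr
  have hlQ : Real.log Q ≤ T * l := (Real.log_le_iff_le_exp (by linarith)).2 hQe
  have hlQ0 : 0 ≤ Real.log Q := Real.log_nonneg hQ1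
  -- the bracket
  have h2 : (q' : ℝ) * |(q : ℝ) * (b : ℝ) ^ u * y - p| ≤
      Real.exp ((g + g' + 1 - (v - u)) * l) := by
    have e : Real.exp ((g + g' + 1 - (v - u)) * l) =
        Real.exp (g' * l) * Real.exp ((g + 1 - (v - u)) * l) := by
      rw [← Real.exp_add]; congr 1; ring
    rw [e]
    gcongr
  have h3 : (q : ℝ) * |(q' : ℝ) * (b : ℝ) ^ u * y' - p'| ≤
      Real.exp ((g + g' + 1 - (v - u)) * l) := by
    have e : Real.exp ((g + g' + 1 - (v - u)) * l) =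
        Real.exp (g * l) * Real.exp ((g' + 1 - (v - u)) * l) := by
      rw [← Real.exp_add]; congr 1; ring
    rw [e]
    gcongr
  have h4 : 1 + Real.log Q ≤ (1 + T) * (1 + l) := by nlinarith
  have h5 : (1 : ℝ) ≤ K * Real.exp (T * l) * ((1 + T) * (1 + l)) *
      (2 * Real.exp ((g + g' + 1 - (v - u)) * l)) := by
    refine h1.trans ?_
    refine mul_le_mul (mul_le_mul (mul_le_mul_of_nonneg_left hQe hK0.le) h4 (by linarith)
      (by positivity)) (by linarith) (by positivity) (by positivity)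
  have hl0 : 0 < l := by linarith
  have h6 := Real.log_le_log one_pos h5
  obtain ⟨K2, hK2⟩ : ∃ K2 : ℝ, K2 = 2 * K := ⟨_, rfl⟩
  have hK20 : 0 < K2 := by rw [hK2]; positivity
  have e6 : K * Real.exp (T * l) * ((1 + T) * (1 + l)) *
      (2 * Real.exp ((g + g' + 1 - (v - u)) * l)) =
      K2 * ((1 + T) * (1 + l)) * (Real.exp (T * l) *
        Real.exp ((g + g' + 1 - (v - u)) * l)) := by rw [hK2]; ring
  rw [Real.log_one, e6, ← Real.exp_add, Real.log_mul (by positivity) (by positivity), Real.log_exp,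
    Real.log_mul (by positivity) (by positivity), Real.log_mul (by positivity) (by positivity)] at h6
  have h7 : Real.log K2 ≤ C := by rw [hC, hK2]; exact le_abs_self _
  have h8 : Real.log (1 + l) ≤ l := by
    have := Real.log_le_sub_one_of_pos (by linarith : 0 < 1 + l)
    linarith
  have h9 : 0 ≤ Real.log (1 + T) := Real.log_nonneg (by linarith)
  have h10 : ((v : ℝ) - (2 * T + 2)) * l ≤ Real.log (1 + T) + C := by
    have e : (g + g' + 1 - ((v : ℝ) - u)) * l = (T + 1 - v) * l := by rw [hT]; ring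
    rw [e] at h6
    nlinarith
  rw [← hT]
  have h11 : Real.log (1 + T) + C ≤ (3 / 2 * Real.log (1 + T) + 3 / 2 * C) * l := by nlinarith
  have h12 : (v : ℝ) - (2 * T + 2) ≤ 3 / 2 * Real.log (1 + T) + 3 / 2 * C :=
    le_of_mul_le_mul_right (h10.trans h11) hl0
  linarith

/-- two bases -/
theorem two_bases (A B Γ A' B' Γ' M : ℤ) (hM : 1 ≤ M) (hΔ : A' * B - A * B' ≠ 0) :
    ∃ C : ℝ, 0 ≤ C ∧ ∀ (ξ y y' : ℝ), (M : ℝ) * y = A * ξ + B * Real.exp 1 + Γ →
      (M : ℝ) * y' = A' * ξ + B' * Real.exp 1 + Γ' → ∀ (b b' u v u' v' m m' : ℕ) (c c' : ℕ → ℚ),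
      2 ≤ b → 2 ≤ b' → u ≤ v → u' ≤ v' → Rec y b u v m c → Rec y' b' u' v' m' c' →
      min (v * Real.log b) (v' * Real.log b') ≤
        (2 + 1 / 20) * ((u + G m) * Real.log b + (u' + G m') * Real.log b') +
          C * (Real.log b + Real.log b') := by
  obtain ⟨K, hK0, hpair⟩ := pair A B Γ A' B' Γ' M hM hΔ
  obtain ⟨C, hC⟩ : ∃ C : ℝ, C = |Real.log (2 * K)| := ⟨_, rfl⟩
  have hC0 : 0 ≤ C := by rw [hC]; exact abs_nonneg _
  refine ⟨1 + C + 3, by linarith, ?_⟩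
  intro ξ y y' hy hy' b b' u v u' v' m m' c c' hb hb' huv huv' hr hr'
  obtain ⟨q, p, hq, hlq, hp⟩ := approx_win y b hb u v m huv c hr
  obtain ⟨q', p', hq', hlq', hp'⟩ := approx_win y' b' hb' u' v' m' huv' c' hr'
  have hG := G_nonneg m
  have hG' := G_nonneg m'
  have hu0 : (0 : ℝ) ≤ u := Nat.cast_nonneg u
  have hu0' : (0 : ℝ) ≤ u' := Nat.cast_nonneg u'
  have hl := log_b hb
  have hl' := log_b hb'
  obtain ⟨l, hll⟩ : ∃ l : ℝ, l = Real.log b := ⟨_, rfl⟩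
  obtain ⟨l', hll'⟩ : ∃ l' : ℝ, l' = Real.log b' := ⟨_, rfl⟩
  have ebu : (b : ℝ) ^ u = Real.exp (u * l) := by rw [hll]; exact exp_pow hb u
  have ebu' : (b' : ℝ) ^ u' = Real.exp (u' * l') := by rw [hll']; exact exp_pow hb' u'
  rw [← hll] at hlq hp hl ⊢
  rw [← hll'] at hlq' hp' hl' ⊢
  obtain ⟨g, hg⟩ : ∃ g : ℝ, g = G m := ⟨_, rfl⟩
  obtain ⟨g', hg'⟩ : ∃ g' : ℝ, g' = G m' := ⟨_, rfl⟩
  rw [← hg] at hG hlq hp ⊢
  rw [← hg'] at hG' hlq' hp' ⊢
  have hbu : 1 ≤ b ^ u := Nat.one_le_pow _ _ (by omega)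
  have hbu' : 1 ≤ b' ^ u' := Nat.one_le_pow _ _ (by omega)
  have h1 := hpair ξ y y' hy hy' 1 (q * b ^ u) (q' * b' ^ u') p p' le_rfl
    (Nat.mul_pos hq hbu) (Nat.mul_pos hq' hbu')
  have hqe := le_exp hq hlq
  have hqe' := le_exp hq' hlq'
  have hqR : (1 : ℝ) ≤ q := by exact_mod_cast hq
  have hq'R : (1 : ℝ) ≤ q' := by exact_mod_cast hq'
  have hbuR : (1 : ℝ) ≤ (b : ℝ) ^ u := by exact_mod_cast hbu
  have hbuR' : (1 : ℝ) ≤ (b' : ℝ) ^ u' := by exact_mod_cast hbu'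
  push_cast at h1
  simp only [one_mul, mul_one] at h1
  obtain ⟨Q, hQ⟩ : ∃ Q : ℝ, Q = (q : ℝ) * (b : ℝ) ^ u * (q' * (b' : ℝ) ^ u') := ⟨_, rfl⟩
  rw [← hQ] at h1
  have hQ1 : 1 ≤ Q := by
    rw [hQ]
    have h2 : 1 ≤ (q : ℝ) * (b : ℝ) ^ u := by nlinarith
    have h3 : 1 ≤ (q' : ℝ) * (b' : ℝ) ^ u' := by nlinarith
    nlinarith
  obtain ⟨T, hT⟩ : ∃ T : ℝ, T = (u + g) * l + (u' + g') * l' := ⟨_, rfl⟩
  have hT0 : 0 ≤ T := by
    rw [hT]
    have : 0 ≤ (u + g) * l := mul_nonneg (by linarith) (by linarith)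
    have : 0 ≤ (u' + g') * l' := mul_nonneg (by linarith) (by linarith)
    linarith
  have hq1 : (q : ℝ) * (b : ℝ) ^ u ≤ Real.exp ((u + g) * l) := by
    have e : Real.exp ((u + g) * l) = Real.exp (g * l) * Real.exp (u * l) := by
      rw [← Real.exp_add]; congr 1; ring
    rw [e, ebu]
    gcongr
  have hq1' : (q' : ℝ) * (b' : ℝ) ^ u' ≤ Real.exp ((u' + g') * l') := by
    have e : Real.exp ((u' + g') * l') = Real.exp (g' * l') * Real.exp (u' * l') := by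
      rw [← Real.exp_add]; congr 1; ring
    rw [e, ebu']
    gcongr
  have hQe : Q ≤ Real.exp T := by
    rw [hT, Real.exp_add, hQ]
    gcongr
  have hlQ : Real.log Q ≤ T := (Real.log_le_iff_le_exp (by linarith)).2 hQe
  have hlQ0 : 0 ≤ Real.log Q := Real.log_nonneg hQ1
  obtain ⟨w, hw⟩ : ∃ w : ℝ, w = min (v * l) (v' * l') := ⟨_, rfl⟩
  have hw1 : w ≤ v * l := by rw [hw]; exact min_le_left _ _
  have hw2 : w ≤ v' * l' := by rw [hw]; exact min_le_right _ _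
  -- the bracket
  have h2 : (q' : ℝ) * (b' : ℝ) ^ u' * |(q : ℝ) * (b : ℝ) ^ u * y - p| ≤
      Real.exp (T + (l + l') - w) := by
    calc (q' : ℝ) * (b' : ℝ) ^ u' * |(q : ℝ) * (b : ℝ) ^ u * y - p| ≤
        Real.exp ((u' + g') * l') * Real.exp ((g + 1 - (v - u)) * l) := by gcongr
      _ ≤ Real.exp (T + (l + l') - w) := by
        rw [← Real.exp_add]
        apply Real.exp_le_exp.2
        rw [hT]
        nlinarith
  have h3 : (q : ℝ) * (b : ℝ) ^ u * |(q' : ℝ) * (b' : ℝ) ^ u' * y' - p'| ≤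
      Real.exp (T + (l + l') - w) := by
    calc (q : ℝ) * (b : ℝ) ^ u * |(q' : ℝ) * (b' : ℝ) ^ u' * y' - p'| ≤
        Real.exp ((u + g) * l) * Real.exp ((g' + 1 - (v' - u')) * l') := by gcongr
      _ ≤ Real.exp (T + (l + l') - w) := by
        rw [← Real.exp_add]
        apply Real.exp_le_exp.2
        rw [hT]
        nlinarith
  have h5 : (1 : ℝ) ≤ K * Real.exp T * (1 + T) * (2 * Real.exp (T + (l + l') - w)) := by
    refine h1.trans ?_
    refine mul_le_mul (mul_le_mul (mul_le_mul_of_nonneg_left hQe hK0.le) (by linarith)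
      (by linarith) (by positivity)) (by linarith) (by positivity) (by positivity)
  have h6 := Real.log_le_log one_pos h5
  obtain ⟨K2, hK2⟩ : ∃ K2 : ℝ, K2 = 2 * K := ⟨_, rfl⟩
  have hK20 : 0 < K2 := by rw [hK2]; positivity
  have e6 : K * Real.exp T * (1 + T) * (2 * Real.exp (T + (l + l') - w)) =
      K2 * (1 + T) * (Real.exp T * Real.exp (T + (l + l') - w)) := by rw [hK2]; ring
  rw [Real.log_one, e6, ← Real.exp_add, Real.log_mul (by positivity) (by positivity), Real.log_exp,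
    Real.log_mul (by positivity) (by positivity)] at h6
  have h7 : Real.log K2 ≤ C := by rw [hC, hK2]; exact le_abs_self _
  have h8 : Real.log (1 + T) ≤ 1 / 20 * T + 3 := by
    have h9 := Real.log_le_sub_one_of_pos (by linarith : 0 < (1 + T) / 20)
    have h10 : Real.log (1 + T) = Real.log ((1 + T) / 20) + Real.log 20 := by
      rw [← Real.log_mul (by positivity) (by norm_num)]
      congr 1
      field_simp
    have h11 : Real.log 20 ≤ 3.95 := by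
      rw [Real.log_le_iff_le_exp (by norm_num)]
      have h12 := Real.exp_one_gt_d9
      have h13 : Real.exp 3.95 = Real.exp 1 ^ 3 * Real.exp 0.95 := by
        rw [← Real.exp_nat_mul, ← Real.exp_add]
        norm_num
      have h14 : (0.95 : ℝ) + 1 ≤ Real.exp 0.95 := Real.add_one_le_exp _
      rw [h13]
      have h15 : (2.71 : ℝ) ^ 3 ≤ Real.exp 1 ^ 3 := by gcongr; linarith
      nlinarith
    rw [h10]
    linarith
  rw [← hw, ← hT]
  have h9 : C + 3 ≤ (C + 3) * (l + l') := by nlinarith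
  linarith

end Run7.h88.PE
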